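import Pool.Agent.Helper91_CW.Defs

set_option autoImplicit false
set_option linter.unusedSectionVars false
set_option linter.unusedSimpArgs false

/-!
# Basic facts on the `ℓ¹` norm of the group algebra
-/

namespace Pool.Agent.Helper91_CW

open Equiv

section nrm
variable {G : Type} [Fintype G]

theorem nrm_nonneg (x : Alg G) : 0 ≤ nrm x := Finset.sum_nonneg fun _ _ => abs_nonneg _

@[simp] theorem nrm_zero : nrm (0 : Alg G) = 0 := by simp [nrm]

theorem nrm_add_le (x y : Alg G) : nrm (x + y) ≤ nrm x + nrm y := by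
  unfold nrm
  rw [← Finset.sum_add_distrib]
  exact Finset.sum_le_sum fun g _ => by simpa using abs_add_le (x.coeff g) (y.coeff g)

theorem nrm_neg (x : Alg G) : nrm (-x) = nrm x := by simp [nrm]

theorem nrm_sub_comm (x y : Alg G) : nrm (x - y) = nrm (y - x) := by
  rw [← nrm_neg, neg_sub]

theorem nrm_sub_le (x y : Alg G) : nrm (x - y) ≤ nrm x + nrm y := by
  rw [sub_eq_add_neg]; simpa [nrm_neg] using nrm_add_le x (-y)

theorem nrm_smul (c : ℝ) (x : Alg G) : nrm (c • x) = |c| * nrm x := by
  simp [nrm, abs_mul, Finset.mul_sum]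

theorem nrm_sum_le {ι : Type*} (s : Finset ι) (f : ι → Alg G) :
    nrm (∑ i ∈ s, f i) ≤ ∑ i ∈ s, nrm (f i) := by
  classical
  induction s using Finset.induction_on with
  | empty => simp
  | insert a s ha ih =>
    rw [Finset.sum_insert ha, Finset.sum_insert ha]
    exact (nrm_add_le _ _).trans (by linarith)

/-- Triangle inequality through an intermediate point. -/
theorem nrm_sub_le_sub (x y z : Alg G) : nrm (x - z) ≤ nrm (x - y) + nrm (y - z) := by
  have : x - z = (x - y) + (y - z) := by abel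
  rw [this]; exact nrm_add_le _ _

end nrm

section mul
variable {G : Type} [Fintype G] [Group G]

theorem coeff_pt_mul (g h : G) (x : Alg G) : (pt g * x).coeff h = x.coeff (g⁻¹ * h) := by
  simp [pt, MonoidAlgebra.coeff_single_mul_apply]

theorem coeff_mul_pt (g h : G) (x : Alg G) : (x * pt g).coeff h = x.coeff (h * g⁻¹) := by
  simp [pt, MonoidAlgebra.coeff_mul_single_apply]

@[simp] theorem pt_one : (pt (1 : G)) = 1 := rfl

theorem pt_mul_pt (g h : G) : pt g * pt h = pt (g * h) := by
  simp [pt, MonoidAlgebra.single_mul_single]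

theorem nrm_pt_mul (g : G) (x : Alg G) : nrm (pt g * x) = nrm x := by
  unfold nrm
  simp only [coeff_pt_mul]
  exact Fintype.sum_equiv (Equiv.mulLeft g⁻¹) _ _ (fun h => rfl)

theorem nrm_mul_pt (g : G) (x : Alg G) : nrm (x * pt g) = nrm x := by
  unfold nrm
  simp only [coeff_mul_pt]
  exact Fintype.sum_equiv (Equiv.mulRight g⁻¹) _ _ (fun h => rfl)

theorem eq_sum_pt (x : Alg G) : x = ∑ g, x.coeff g • pt g := by
  classical
  apply MonoidAlgebra.coeff_injective
  ext h
  simp only [MonoidAlgebra.coeff_sum, MonoidAlgebra.coeff_smul, pt]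
  rw [Finsupp.finsetSum_apply, Finset.sum_eq_single h]
  · simp [MonoidAlgebra.coeff_single]
  · intro b _ hb
    simp [MonoidAlgebra.coeff_single, Finsupp.single_eq_of_ne hb, Finsupp.single_eq_of_ne (Ne.symm hb)]
  · simp

theorem nrm_pt [DecidableEq G] (g : G) : nrm (pt g : Alg G) = 1 := by
  unfold nrm pt
  rw [Finset.sum_eq_single g]
  · simp [MonoidAlgebra.coeff_single]
  · intro b _ hb
    simp [MonoidAlgebra.coeff_single, Finsupp.single_eq_of_ne hb, Finsupp.single_eq_of_ne (Ne.symm hb)]
  · simp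

theorem nrm_mul_le (x y : Alg G) : nrm (x * y) ≤ nrm x * nrm y := by
  classical
  conv_lhs => rw [eq_sum_pt x, Finset.sum_mul]
  refine (nrm_sum_le _ _).trans ?_
  unfold nrm
  rw [Finset.sum_mul]
  refine Finset.sum_le_sum fun g _ => ?_
  rw [smul_mul_assoc]
  change nrm (x.coeff g • (pt g * y)) ≤ _
  rw [nrm_smul, nrm_pt_mul]
  rfl

end mul

end Pool.Agent.Helper91_CW
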