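import Pool.Agent.Helper91_CW.UB

set_option autoImplicit false

/-!
# Module statements for the upper bound
-/

namespace Pool.Agent.Helper91_CW

open Equiv

/-- The uniform distribution on the permutations which fix every point outside `P`. -/
noncomputable def uS {V : Type} [Fintype V] [DecidableEq V] (P : Finset V) : Alg (Perm V) :=
  unif (Finset.univ.filter fun σ : Perm V => ∀ z, z ∉ P → σ z = z)

section
variable {H : Type} [Fintype H] [DecidableEq H]

/-- Permutations of the gadget positions supported in `Up` and preserving the levels. -/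
def GLv (lv : H → ℕ) (Up : Finset H) : Finset (Perm H) :=
  Finset.univ.filter fun g => (∀ x, x ∉ Up → g x = x) ∧ ∀ x, lv (g x) = lv x

/-- The uniform distribution on `GLv`, acting on decks. -/
noncomputable def uG (B : Type) [Fintype B] [DecidableEq B] (lv : H → ℕ) (Up : Finset H) :
    Alg (PV H B) :=
  ((GLv lv Up).card : ℝ)⁻¹ • ∑ g ∈ GLv lv Up, pt (Perm.sumCongr g (1 : Perm B))

/-- Composition of partial maps, the cards which are in `Up` in the middle are forgotten. -/
def compLow (Up : Finset H) (S1 S2 : H → Option H) : H → Option H :=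
  fun x => (S1 x).bind fun z => if z ∈ Up then none else S2 z

end

/-- VAR: planting one random pair changes the uniform law only a little (second moment). -/
def VarStatement : Prop :=
  ∀ (H B : Type) [Fintype H] [DecidableEq H] [Fintype B] [DecidableEq B], 1 ≤ Fintype.card B →
    ∀ S : H → Option H, (∀ x x' y, S x = some y → S x' = some y → x = x') →
    ∀ X Y : Finset H, X.Nonempty → Y.Nonempty → (∀ x ∈ X, S x = none) →
      (∀ y ∈ Y, ∀ x, S x ≠ some y) →
      nrm (((X.card : ℝ) * Y.card)⁻¹ • ∑ x ∈ X, ∑ y ∈ Y,
          US B (Function.update S x (some y)) - US B S) ≤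
        Real.sqrt ((Fintype.card H + Fintype.card B : ℕ) / ((X.card : ℝ) * Y.card))

/-- PLANT: a symmetrised partial injection with good pairs is close to uniform. -/
def PlantStatement : Prop :=
  ∀ (H B : Type) [Fintype H] [DecidableEq H] [Fintype B] [DecidableEq B], 1 ≤ Fintype.card B →
    ∀ (lv : H → ℕ) (Up : Finset H) (r0 : ℕ) (A : ℝ), 1 ≤ r0 → 0 < A →
    ∀ S : H → Option H, (∀ x x' y, S x = some y → S x' = some y → x = x') →
      (∀ x y, S x = some y → GoodPair lv Up r0 A x y) →
      (Finset.univ.filter fun x => S x ≠ none).card ≤ r0 →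
      nrm (uG B lv Up * US B S * uG B lv Up - UU H B) ≤
        ((Finset.univ.filter fun x => S x ≠ none).card : ℝ) *
          (2 * Real.sqrt ((Fintype.card H + Fintype.card B : ℕ) / A))

/-- HALF: symmetrisation of the two halves of a random word. -/
def HalfStatement : Prop :=
  ∀ (H B : Type) [Fintype H] [DecidableEq H] [Fintype B] [DecidableEq B], 1 ≤ Fintype.card B →
    ∀ p : Sy H → ℝ, (∀ α, 0 ≤ p α) → ∑ α, p α ≤ 1 →
    ∀ (lv : H → ℕ) (Up : Finset H),
      (∀ x ∈ Up, ∀ x' ∈ Up, lv x = lv x' → ∀ α, p (smap (swap x x') α) = p α) →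
    ∀ t1 t2 : ℕ,
      nrm (Ex p (t1 + t2) (fun ω => US B (tr ω)) -
          Ex p t1 (fun ω1 => Ex p t2 (fun ω2 =>
            uG B lv Up * US B (compLow Up (tr ω1) (tr ω2)) * uG B lv Up))) ≤
        2 * ∑ z ∈ Up, Kit p t1 (fun _ => 1) z * Kit p t2 (fun _ => 1) z

/-- U3 from its two parts. -/
def U3AssemblyStatement : Prop := PlantStatement → HalfStatement → U3Statement

/-- UB from its parts. -/
def UBAssemblyStatement : Prop :=
  BroStatement → RedStatement → U2Statement → ExpStatement → U3Statement → UBStatement

end Pool.Agent.Helper91_CW
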