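import Pool.Agent.Helper91_CW.Alg
import Pool.Agent.Helper91_CW.Mods

set_option autoImplicit false
set_option linter.unusedSectionVars false
set_option linter.unusedSimpArgs false

/-!
# Uniform distributions on sets of permutations
-/

namespace Pool.Agent.Helper91_CW

open Equiv

section general
variable {G : Type} [Fintype G]

theorem nrm_unif_le (S : Finset G) : nrm (unif S) ≤ 1 := by
  classical
  unfold unif
  rw [nrm_smul, abs_of_nonneg (by positivity)]
  rcases S.eq_empty_or_nonempty with rfl | hS
  · simp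
  · have h1 : nrm (∑ g ∈ S, pt g) ≤ ∑ g ∈ S, nrm (pt g) := nrm_sum_le _ _
    have h2 : ∑ g ∈ S, nrm (pt g : Alg G) = S.card := by
      rw [Finset.sum_congr rfl (fun g _ => ?_), Finset.sum_const, nsmul_eq_mul, mul_one]
      unfold nrm pt
      rw [Finset.sum_eq_single g]
      · simp [MonoidAlgebra.coeff_single]
      · intro b _ hb
        simp [MonoidAlgebra.coeff_single, Finsupp.single_eq_of_ne hb,
          Finsupp.single_eq_of_ne (Ne.symm hb)]
      · simp
    have hc : (0 : ℝ) < S.card := by exact_mod_cast hS.card_pos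
    calc (S.card : ℝ)⁻¹ * nrm (∑ g ∈ S, pt g) ≤ (S.card : ℝ)⁻¹ * S.card := by
          apply mul_le_mul_of_nonneg_left _ (by positivity)
          rw [← h2]; exact h1
      _ = 1 := by field_simp

theorem coeff_unif [DecidableEq G] (S : Finset G) (g : G) :
    (unif S).coeff g = if g ∈ S then (S.card : ℝ)⁻¹ else 0 := by
  unfold unif
  rw [MonoidAlgebra.coeff_smul, MonoidAlgebra.coeff_sum]
  simp only [Finsupp.smul_apply, Finsupp.finsetSum_apply, pt, MonoidAlgebra.coeff_single]
  by_cases hg : g ∈ S
  · rw [if_pos hg, Finset.sum_eq_single g]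
    · simp
    · intro b _ hb
      simp [Finsupp.single_eq_of_ne hb, Finsupp.single_eq_of_ne (Ne.symm hb)]
    · intro h; exact absurd hg h
  · rw [if_neg hg, Finset.sum_eq_zero]
    · simp
    · intro b hb
      have : b ≠ g := fun h => hg (h ▸ hb)
      simp [Finsupp.single_eq_of_ne this, Finsupp.single_eq_of_ne (Ne.symm this)]

theorem pt_mul_unif [Group G] [DecidableEq G] (g : G) (S : Finset G) :
    pt g * unif S = unif (S.image fun h => g * h) := by
  unfold unif
  rw [Finset.card_image_of_injective _ (mul_right_injective g),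
    Finset.sum_image (fun a _ b _ h => mul_right_injective g h), mul_smul_comm, Finset.mul_sum]
  simp only [pt_mul_pt]

theorem unif_mul_pt [Group G] [DecidableEq G] (g : G) (S : Finset G) :
    unif S * pt g = unif (S.image fun h => h * g) := by
  unfold unif
  rw [Finset.card_image_of_injective _ (mul_left_injective g),
    Finset.sum_image (fun a _ b _ h => mul_left_injective g h), smul_mul_assoc, Finset.sum_mul]
  simp only [pt_mul_pt]

end general

section perm
variable {V : Type} [Fintype V] [DecidableEq V]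

theorem apply_inv_self' {W : Type} (σ : Perm W) (x : W) : σ (σ⁻¹ x) = x := by simp

/-- Permutations which fix every point outside `P`. -/
def fixS (P : Finset V) : Finset (Perm V) :=
  Finset.univ.filter fun σ : Perm V => ∀ z, z ∉ P → σ z = z

theorem mem_fixS {P : Finset V} {σ : Perm V} : σ ∈ fixS P ↔ ∀ z, z ∉ P → σ z = z := by
  simp [fixS]

theorem uS_def (P : Finset V) : uS P = unif (fixS P) := rfl

theorem one_mem_fixS (P : Finset V) : (1 : Perm V) ∈ fixS P := by simp [mem_fixS]

theorem fixS_card_pos (P : Finset V) : 0 < (fixS P).card :=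
  Finset.card_pos.mpr ⟨1, one_mem_fixS P⟩

theorem nrm_uS_le (P : Finset V) : nrm (uS P) ≤ 1 := nrm_unif_le _

theorem pt_mul_uS {P : Finset V} {g : Perm V} (hg : ∀ z, z ∉ P → g z = z) :
    pt g * uS P = uS P := by
  rw [uS_def, pt_mul_unif]
  congr 1
  ext σ
  simp only [Finset.mem_image, mem_fixS]
  constructor
  · rintro ⟨h, hh, rfl⟩ z hz
    rw [Perm.mul_apply, hh z hz, hg z hz]
  · intro hσ
    refine ⟨g⁻¹ * σ, fun z hz => ?_, by simp⟩
    rw [Perm.mul_apply, hσ z hz, Perm.inv_eq_iff_eq, hg z hz]

theorem uS_mul_pt {P : Finset V} {g : Perm V} (hg : ∀ z, z ∉ P → g z = z) :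
    uS P * pt g = uS P := by
  rw [uS_def, unif_mul_pt]
  congr 1
  ext σ
  simp only [Finset.mem_image, mem_fixS]
  constructor
  · rintro ⟨h, hh, rfl⟩ z hz
    rw [Perm.mul_apply, hg z hz, hh z hz]
  · intro hσ
    refine ⟨σ * g⁻¹, fun z hz => ?_, by simp⟩
    have : g⁻¹ z = z := by rw [Perm.inv_eq_iff_eq, hg z hz]
    rw [Perm.mul_apply, this, hσ z hz]

theorem pt_mul_uS_comm (P : Finset V) (g : Perm V) :
    pt g * uS P = uS (P.image g) * pt g := by
  rw [uS_def, uS_def, pt_mul_unif, unif_mul_pt]
  congr 1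
  ext σ
  simp only [Finset.mem_image, mem_fixS]
  constructor
  · rintro ⟨h, hh, rfl⟩
    refine ⟨g * h * g⁻¹, fun z hz => ?_, by group⟩
    have : g⁻¹ z ∉ P := fun h' => hz ⟨g⁻¹ z, h', by simp⟩
    rw [Perm.mul_apply, Perm.mul_apply, hh _ this]
    simp
  · rintro ⟨h, hh, rfl⟩
    refine ⟨g⁻¹ * h * g, fun z hz => ?_, by group⟩
    have : h (g z) = g z := by
      apply hh
      rintro ⟨a, ha, hag⟩
      exact hz (g.injective hag ▸ ha)
    simp [Perm.mul_apply, this]

/-- The average of `pt g` over a set times `uS Q` is `uS Q` if the set fixes points outside `Q`. -/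
theorem uS_mul_uS_right {P Q : Finset V} (h : P ⊆ Q) : uS P * uS Q = uS Q := by
  conv_lhs => rw [uS_def P]
  unfold unif
  rw [smul_mul_assoc, Finset.sum_mul]
  rw [Finset.sum_congr rfl (fun g hg => pt_mul_uS (P := Q) (g := g)
    (fun z hz => (mem_fixS.mp hg) z (fun hz' => hz (h hz'))))]
  rw [Finset.sum_const, ← Nat.cast_smul_eq_nsmul ℝ, smul_smul, inv_mul_cancel₀, one_smul]
  have := fixS_card_pos P
  positivity

theorem uS_mul_uS_left {P Q : Finset V} (h : P ⊆ Q) : uS Q * uS P = uS Q := by
  conv_lhs => rw [uS_def P]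
  unfold unif
  rw [mul_smul_comm, Finset.mul_sum]
  rw [Finset.sum_congr rfl (fun g hg => uS_mul_pt (P := Q) (g := g)
    (fun z hz => (mem_fixS.mp hg) z (fun hz' => hz (h hz'))))]
  rw [Finset.sum_const, ← Nat.cast_smul_eq_nsmul ℝ, smul_smul, inv_mul_cancel₀, one_smul]
  have := fixS_card_pos P
  positivity

/-- Enlarging the set of free points by one point. -/
theorem uS_insert {P : Finset V} {x : V} (hx : x ∉ P) :
    uS (insert x P) =
      uS P * (((P.card : ℝ) + 1)⁻¹ • ∑ y ∈ insert x P, pt (swap x y)) := by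
  have hbij : ∑ σ ∈ fixS (insert x P), (pt σ : Alg (Perm V)) =
      ∑ τ ∈ fixS P, ∑ y ∈ insert x P, pt (τ * swap x y) := by
    rw [← Finset.sum_product']
    symm
    refine Finset.sum_nbij' (fun p => p.1 * swap x p.2)
      (fun σ => (σ * swap x (σ⁻¹ x), σ⁻¹ x)) ?_ ?_ ?_ ?_ ?_
    · rintro ⟨τ, y⟩ h
      rw [Finset.mem_product] at h
      obtain ⟨hτ, hy⟩ := h
      rw [mem_fixS] at hτ ⊢
      intro z hz
      have hzx : z ≠ x := fun h' => hz (h' ▸ Finset.mem_insert_self x P)
      have hzy : z ≠ y := fun h' => hz (h' ▸ hy)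
      simp only [Perm.mul_apply]
      rw [swap_apply_of_ne_of_ne hzx hzy]
      exact hτ z (fun h' => hz (Finset.mem_insert_of_mem h'))
    · intro σ hσ
      rw [mem_fixS] at hσ
      rw [Finset.mem_product]
      have hmem : σ⁻¹ x ∈ insert x P := by
        by_contra hcon
        have h1 := hσ _ hcon
        rw [apply_inv_self'] at h1
        exact hcon (h1 ▸ Finset.mem_insert_self x P)
      refine ⟨?_, hmem⟩
      rw [mem_fixS]
      intro z hz
      simp only [Perm.mul_apply]
      by_cases hzx : z = x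
      · subst hzx
        rw [swap_apply_left]; simp
      · by_cases hzy : z = σ⁻¹ x
        · have : z ∈ insert x P := hzy ▸ hmem
          rw [Finset.mem_insert] at this
          rcases this with h | h
          · exact absurd h hzx
          · exact absurd h hz
        · rw [swap_apply_of_ne_of_ne hzx hzy]
          apply hσ
          rw [Finset.mem_insert]
          rintro (h | h)
          · exact hzx h
          · exact hz h
    · rintro ⟨τ, y⟩ h
      rw [Finset.mem_product] at h
      obtain ⟨hτ, hy⟩ := h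
      have hτx : τ x = x := (mem_fixS.mp hτ) x hx
      have hinv : (τ * swap x y)⁻¹ x = y := by
        rw [Perm.inv_eq_iff_eq, Perm.mul_apply, swap_apply_right, hτx]
      ext1
      · simp only [hinv]
        rw [mul_assoc, swap_mul_self, mul_one]
      · exact hinv
    · intro σ hσ
      simp only
      rw [mul_assoc, swap_mul_self, mul_one]
    · rintro ⟨τ, y⟩ _
      rfl
  have hcard : (fixS (insert x P)).card = (fixS P).card * (P.card + 1) := by
    have h1 : ((fixS P) ×ˢ (insert x P)).card = (fixS (insert x P)).card := by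
      refine Finset.card_nbij' (fun p => p.1 * swap x p.2)
        (fun σ => (σ * swap x (σ⁻¹ x), σ⁻¹ x)) ?_ ?_ ?_ ?_
      · rintro ⟨τ, y⟩ h
        simp only [Finset.coe_product, Set.mem_prod, Finset.mem_coe] at h
        obtain ⟨hτ, hy⟩ := h
        simp only [Finset.mem_coe]
        rw [mem_fixS] at hτ ⊢
        intro z hz
        have hzx : z ≠ x := fun h' => hz (h' ▸ Finset.mem_insert_self x P)
        have hzy : z ≠ y := fun h' => hz (h' ▸ hy)
        simp only [Perm.mul_apply]
        rw [swap_apply_of_ne_of_ne hzx hzy]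
        exact hτ z (fun h' => hz (Finset.mem_insert_of_mem h'))
      · intro σ hσ
        simp only [Finset.mem_coe] at hσ
        rw [mem_fixS] at hσ
        simp only [Finset.coe_product, Set.mem_prod, Finset.mem_coe]
        have hmem : σ⁻¹ x ∈ insert x P := by
          by_contra hcon
          have h1 := hσ _ hcon
          rw [apply_inv_self'] at h1
          exact hcon (h1 ▸ Finset.mem_insert_self x P)
        refine ⟨?_, hmem⟩
        rw [mem_fixS]
        intro z hz
        simp only [Perm.mul_apply]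
        by_cases hzx : z = x
        · subst hzx
          rw [swap_apply_left]; simp
        · by_cases hzy : z = σ⁻¹ x
          · have : z ∈ insert x P := hzy ▸ hmem
            rw [Finset.mem_insert] at this
            rcases this with h | h
            · exact absurd h hzx
            · exact absurd h hz
          · rw [swap_apply_of_ne_of_ne hzx hzy]
            apply hσ
            rw [Finset.mem_insert]
            rintro (h | h)
            · exact hzx h
            · exact hz h
      · rintro ⟨τ, y⟩ h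
        simp only [Finset.coe_product, Set.mem_prod, Finset.mem_coe] at h
        obtain ⟨hτ, hy⟩ := h
        have hτx : τ x = x := (mem_fixS.mp hτ) x hx
        have hinv : (τ * swap x y)⁻¹ x = y := by
          rw [Perm.inv_eq_iff_eq, Perm.mul_apply, swap_apply_right, hτx]
        ext1
        · simp only [hinv]
          rw [mul_assoc, swap_mul_self, mul_one]
        · exact hinv
      · intro σ hσ
        simp only
        rw [mul_assoc, swap_mul_self, mul_one]
    rw [← h1, Finset.card_product, Finset.card_insert_of_notMem hx]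
  rw [uS_def, uS_def]
  unfold unif
  rw [hbij, hcard, smul_mul_smul_comm, Finset.sum_mul_sum]
  simp only [pt_mul_pt]
  congr 1
  push_cast
  rw [mul_inv]

theorem uS_univ : uS (Finset.univ : Finset V) = unif Finset.univ := by
  rw [uS_def]
  congr 1
  ext σ
  simp [mem_fixS]

end perm

section bulk
variable {H : Type} [Fintype H] [DecidableEq H]
variable {B : Type} [Fintype B] [DecidableEq B]

/-- The bulk positions. -/
def bulk (H B : Type) [Fintype H] [DecidableEq H] [Fintype B] [DecidableEq B] :
    Finset (H ⊕ B) := Finset.univ.filter fun z => z.isRight = true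

theorem mem_bulk {z : H ⊕ B} : z ∈ bulk H B ↔ z.isRight = true := by simp [bulk]

@[simp] theorem inr_mem_bulk (b : B) : (Sum.inr b : H ⊕ B) ∈ bulk H B := by simp [mem_bulk]

@[simp] theorem inl_notMem_bulk (x : H) : (Sum.inl x : H ⊕ B) ∉ bulk H B := by simp [mem_bulk]

theorem sumCongr_mem_fixS (τ : Perm B) :
    Perm.sumCongr (1 : Perm H) τ ∈ fixS (bulk H B) := by
  rw [mem_fixS]
  rintro (x | b) hz
  · simp
  · simp at hz

theorem exists_of_mem_fixS {σ : Perm (H ⊕ B)} (h : σ ∈ fixS (bulk H B)) :
    ∃ τ : Perm B, Perm.sumCongr (1 : Perm H) τ = σ := by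
  rw [mem_fixS] at h
  have h1 : Set.MapsTo σ (Set.range Sum.inl) (Set.range Sum.inl) := by
    rintro _ ⟨x, rfl⟩
    exact ⟨x, (h (Sum.inl x) (by simp)).symm⟩
  obtain ⟨⟨σ1, σ2⟩, hσ⟩ := Perm.mem_sumCongrHom_range_of_perm_mapsTo_inl h1
  refine ⟨σ2, ?_⟩
  rw [← hσ]
  have : σ1 = 1 := by
    ext x
    have h2 := h (Sum.inl x) (by simp)
    rw [← hσ] at h2
    simp only [Perm.sumCongrHom_apply, Perm.sumCongr_apply, Sum.map_inl, Sum.inl.injEq] at h2
    simpa using h2
  subst this
  rfl

theorem EB_eq : EB H B = uS (bulk H B) := by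
  have hinj : Function.Injective (fun τ : Perm B => Perm.sumCongr (1 : Perm H) τ) := by
    intro a b hab
    ext z
    have := congrArg (fun f : Perm (H ⊕ B) => f (Sum.inr z)) hab
    simpa using this
  have himg : fixS (bulk H B) =
      (Finset.univ : Finset (Perm B)).image (fun τ => Perm.sumCongr (1 : Perm H) τ) := by
    ext σ
    simp only [Finset.mem_image, Finset.mem_univ, true_and]
    constructor
    · intro h; exact exists_of_mem_fixS h
    · rintro ⟨τ, rfl⟩; exact sumCongr_mem_fixS τ
  rw [uS_def, himg]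
  unfold unif EB
  rw [Finset.card_image_of_injective _ hinj, Finset.sum_image (fun a _ b _ h => hinj h),
    Finset.card_univ, Fintype.card_perm]

theorem UU_eq : UU H B = uS (Finset.univ : Finset (H ⊕ B)) := uS_univ.symm

theorem pt_mul_UU (g : Perm (H ⊕ B)) : pt g * UU H B = UU H B := by
  rw [UU_eq]; exact pt_mul_uS (fun z hz => absurd (Finset.mem_univ z) hz)

theorem UU_mul_pt (g : Perm (H ⊕ B)) : UU H B * pt g = UU H B := by
  rw [UU_eq]; exact uS_mul_pt (fun z hz => absurd (Finset.mem_univ z) hz)

/-- The free positions: bulk positions and cards with `S x = none`. -/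
def free (B : Type) [Fintype B] [DecidableEq B] (S : H → Option H) : Finset (H ⊕ B) :=
  Finset.univ.filter fun z => ∀ x, z = Sum.inl x → S x = none

@[simp] theorem inl_mem_free {S : H → Option H} {x : H} :
    (Sum.inl x : H ⊕ B) ∈ free B S ↔ S x = none := by
  simp only [free, Finset.mem_filter, Finset.mem_univ, true_and, Sum.inl.injEq]
  constructor
  · intro h; exact h x rfl
  · rintro h _ rfl; exact h

@[simp] theorem inr_mem_free {S : H → Option H} {b : B} : (Sum.inr b : H ⊕ B) ∈ free B S := by
  simp [free]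

theorem mem_ext {S : H → Option H} {σ : PV H B} :
    σ ∈ ext B S ↔ ∀ x y, S x = some y → σ (Sum.inl x) = Sum.inl y := by
  simp [ext]

theorem ext_nonempty {S : H → Option H}
    (hS : ∀ x x' y, S x = some y → S x' = some y → x = x') : (ext B S).Nonempty := by
  classical
  let P : H ⊕ B → Prop := fun z => ∃ x y, z = Sum.inl x ∧ S x = some y
  let Q : H ⊕ B → Prop := fun z => ∃ x y, z = Sum.inl y ∧ S x = some y
  have f : ∀ z : {z // P z}, ∃ z' : {z' // Q z'}, ∃ x y, z.1 = Sum.inl x ∧ S x = some y ∧
      z'.1 = Sum.inl y := by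
    rintro ⟨z, x, y, hz, hxy⟩
    exact ⟨⟨Sum.inl y, x, y, rfl, hxy⟩, x, y, hz, hxy, rfl⟩
  choose F hF using f
  have hbij : Function.Bijective F := by
    constructor
    · intro a b hab
      obtain ⟨x, y, h1, h2, h3⟩ := hF a
      obtain ⟨x', y', h1', h2', h3'⟩ := hF b
      rw [hab] at h3
      rw [h3] at h3'
      have hyy : y = y' := by simpa using h3'
      subst hyy
      have := hS x x' y h2 h2'
      subst this
      exact Subtype.ext (h1.trans h1'.symm)
    · rintro ⟨z', x, y, hz', hxy⟩
      refine ⟨⟨Sum.inl x, x, y, rfl, hxy⟩, ?_⟩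
      obtain ⟨x', y', h1, h2, h3⟩ := hF ⟨Sum.inl x, x, y, rfl, hxy⟩
      have hxx : x = x' := by simpa using h1
      subst hxx
      rw [hxy] at h2
      have hyy : y = y' := by simpa using h2
      subst hyy
      exact Subtype.ext (h3.trans hz'.symm)
  let e : {z // P z} ≃ {z // Q z} := Equiv.ofBijective F hbij
  refine ⟨e.extendSubtype, ?_⟩
  rw [mem_ext]
  intro x y hxy
  have hP : P (Sum.inl x) := ⟨x, y, rfl, hxy⟩
  rw [Equiv.extendSubtype_apply_of_mem e _ hP]
  change (F ⟨Sum.inl x, hP⟩).1 = _
  obtain ⟨x', y', h1, h2, h3⟩ := hF ⟨Sum.inl x, hP⟩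
  have hxx : x = x' := by simpa using h1
  subst hxx
  rw [hxy] at h2
  have hyy : y = y' := by simpa using h2
  subst hyy
  exact h3

/-- The law `US S` in terms of one element. -/
theorem US_eq_of_mem {S : H → Option H} {σ0 : PV H B} (h0 : σ0 ∈ ext B S) :
    US B S = pt σ0 * uS (free B S) := by
  unfold US
  rw [uS_def, pt_mul_unif]
  congr 1
  rw [mem_ext] at h0
  ext σ
  simp only [Finset.mem_image, mem_fixS]
  constructor
  · intro hσ
    rw [mem_ext] at hσ
    refine ⟨σ0⁻¹ * σ, ?_, by simp⟩
    rintro (x | b) hz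
    · have hx : S x ≠ none := fun h => hz (by simp [h])
      obtain ⟨y, hy⟩ := Option.ne_none_iff_exists'.mp hx
      rw [Perm.mul_apply, hσ x y hy, Perm.inv_eq_iff_eq, h0 x y hy]
    · simp at hz
  · rintro ⟨g, hg, rfl⟩
    rw [mem_ext]
    intro x y hxy
    rw [Perm.mul_apply, hg (Sum.inl x) (by simp [hxy]), h0 x y hxy]

theorem nrm_US_le (S : H → Option H) : nrm (US B S) ≤ 1 := nrm_unif_le _

theorem US_none : US B (fun _ : H => none) = UU H B := by
  unfold US UU
  congr 1
  ext σ
  simp [mem_ext]

theorem US_some : US B (fun x : H => some x) = EB H B := by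
  have h1 : (1 : PV H B) ∈ ext B (fun x : H => some x) := by
    rw [mem_ext]
    rintro x y h
    simp only [Option.some.injEq] at h
    subst h; rfl
  rw [US_eq_of_mem h1, pt_one, one_mul, EB_eq]
  congr 1
  ext (x | b) <;> simp

/-- Translating a partial map on both sides. -/
theorem pt_US_pt (S : H → Option H) (h g : Perm H) :
    pt (Perm.sumCongr h (1 : Perm B)) * US B S * pt (Perm.sumCongr g (1 : Perm B)) =
      US B (fun x => (S (g x)).map h) := by
  unfold US
  rw [pt_mul_unif, unif_mul_pt]
  congr 1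
  ext σ
  simp only [Finset.mem_image, mem_ext]
  constructor
  · rintro ⟨_, ⟨σ0, h0, rfl⟩, rfl⟩ x y hxy
    rw [Option.map_eq_some_iff] at hxy
    obtain ⟨z, hz, rfl⟩ := hxy
    simp only [Perm.mul_apply, Perm.sumCongr_apply, Sum.map_inl]
    rw [h0 (g x) z hz]
    simp
  · intro hσ
    refine ⟨σ * (Perm.sumCongr g (1 : Perm B))⁻¹, ⟨(Perm.sumCongr h (1 : Perm B))⁻¹ *
      (σ * (Perm.sumCongr g (1 : Perm B))⁻¹), ?_, by group⟩, by group⟩
    intro x y hxy
    have h1 : σ (Sum.inl (g⁻¹ x)) = Sum.inl (h y) := by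
      apply hσ
      rw [apply_inv_self', hxy]; rfl
    have h2 : (Perm.sumCongr g (1 : Perm B))⁻¹ (Sum.inl x) = Sum.inl (g⁻¹ x) := by
      rw [Perm.inv_eq_iff_eq]; simp
    rw [Perm.mul_apply, Perm.mul_apply, h2, h1, Perm.inv_eq_iff_eq]
    simp

end bulk

end Pool.Agent.Helper91_CW
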