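import Pool.Agent.Helper91_CW.U2
import Pool.Agent.Helper8_CW.Bro
import Pool.Agent.Helper8_CW.Exp
import Pool.Agent.Helper51_CW.Plant
import Pool.Agent.Helper14_CW.Half
import Pool.Agent.Helper14_CW.UBAsm
import Pool.Agent.Helper3_CW.U3Asm

set_option autoImplicit false

/-!
# The abstract upper bound
-/

namespace Pool.Agent.Helper91_CW

theorem ub : UBStatement :=
  Pool.Agent.Helper14_CW.ubasm Pool.Agent.Helper8_CW.bro_thm Pool.Agent.Helper8_CW.red_thm u2
    Pool.Agent.Helper8_CW.exp_thm
    (Pool.Agent.Helper3_CW.u3_assembly Pool.Agent.Helper51_CW.plant Pool.Agent.Helper14_CW.half)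


end Pool.Agent.Helper91_CW
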