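import Mathlib

set_option autoImplicit false

/-!
# Interface: lazy transposition walks induced by graphs, no cutoff

Algebraic part: `H` = gadget positions, `B` = bulk positions, decks = permutations of `H ⊕ B`
(`σ c` = position of the card `c`); a step multiplies on the left.
-/

namespace Pool.Agent.Helper91_CW

open Equiv

/-- The group algebra. -/
abbrev Alg (G : Type) := MonoidAlgebra ℝ G

/-- The point mass at `g`. -/
noncomputable def pt {G : Type} (g : G) : Alg G := MonoidAlgebra.single g 1

/-- The `ℓ¹` norm. -/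
noncomputable def nrm {G : Type} [Fintype G] (x : Alg G) : ℝ := ∑ g, |x.coeff g|

/-- The uniform distribution on a finite set of group elements. -/
noncomputable def unif {G : Type} (S : Finset G) : Alg G := ((S.card : ℝ)⁻¹) • ∑ g ∈ S, pt g

section
variable (H B : Type) [Fintype H] [DecidableEq H] [Fintype B] [DecidableEq B]

/-- Decks. -/
abbrev PV := Perm (H ⊕ B)

/-- The uniform distribution on the permutations of the bulk. -/
noncomputable def EB : Alg (PV H B) :=
  ((Nat.factorial (Fintype.card B) : ℝ)⁻¹) • ∑ τ : Perm B, pt (Perm.sumCongr (1 : Perm H) τ)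

/-- One step of Broder's version of random transpositions in the bulk. -/
noncomputable def bro : Alg (PV H B) :=
  (((Fintype.card B : ℝ) ^ 2)⁻¹) • ∑ w : B, ∑ w' : B, pt (swap (Sum.inr w) (Sum.inr w'))

/-- The uniform distribution on all decks. -/
noncomputable def UU : Alg (PV H B) := unif Finset.univ

end

section
variable {H : Type} [Fintype H] [DecidableEq H]
variable {B : Type} [Fintype B] [DecidableEq B]

/-- A draw at the gadget position `v`: exchange with a uniformly chosen bulk position. -/
noncomputable def kap (B : Type) [Fintype B] [DecidableEq B] (v : H) : Alg (PV H B) :=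
  ((Fintype.card B : ℝ)⁻¹) • ∑ w : B, pt (swap (Sum.inl v) (Sum.inr w))

/-- Gadget symbols: `none` = idle, `some (inl (a, b))` = exchange the positions `a`, `b`,
`some (inr v)` = draw at `v`. -/
abbrev Sy (H : Type) := Option ((H × H) ⊕ H)

/-- The step distribution of a symbol. -/
noncomputable def elt (B : Type) [Fintype B] [DecidableEq B] : Sy H → Alg (PV H B)
  | none => 1
  | some (Sum.inl (a, b)) => pt (swap (Sum.inl a) (Sum.inl b))
  | some (Sum.inr v) => kap B v

/-- The motion of one card under a symbol (`none` = the card is drawn into the bulk). -/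
def act : Sy H → H → Option H
  | none, x => some x
  | some (Sum.inl (a, b)), x => some (swap a b x)
  | some (Sum.inr v), x => if x = v then none else some x

/-- The distribution of a word (the head of the list is applied first). -/
noncomputable def wel (B : Type) [Fintype B] [DecidableEq B] : List (Sy H) → Alg (PV H B)
  | [] => 1
  | α :: ω => wel B ω * elt B α

/-- The motion of one card under a word. -/
def tr : List (Sy H) → H → Option H
  | [], x => some x
  | α :: ω, x => (act α x).bind (tr ω)

/-- The decks in which every card `x` with `S x = some y` is at position `y`. -/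
def ext (B : Type) [Fintype B] [DecidableEq B] (S : H → Option H) : Finset (PV H B) :=
  Finset.univ.filter fun σ => ∀ x y, S x = some y → σ (Sum.inl x) = Sum.inl y

/-- The uniform distribution on `ext S`. -/
noncomputable def US (B : Type) [Fintype B] [DecidableEq B] (S : H → Option H) :
    Alg (PV H B) := unif (ext B S)

/-- The path coupling weights: `N` is the size of the bulk. -/
noncomputable def Lf (N : ℝ) : List (Sy H) → H → ℝ
  | [], _ => 1
  | none :: ω, x => Lf N ω x
  | some (Sum.inl (a, b)) :: ω, x => Lf N ω (swap a b x)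
  | some (Sum.inr v) :: ω, x => (if x = v then 0 else Lf N ω x) + N⁻¹ * Lf N ω v

/-- Expectation over random words of length `t` with letter weights `p`. -/
noncomputable def Ex {M : Type} [AddCommMonoid M] [Module ℝ M] (p : Sy H → ℝ) :
    ℕ → (List (Sy H) → M) → M
  | 0, F => F []
  | t + 1, F => ∑ α, p α • Ex p t (fun ω => F (α :: ω))

/-- The one-card kernel, killed at draws. -/
noncomputable def Kop (p : Sy H → ℝ) (f : H → ℝ) : H → ℝ :=
  fun x => ∑ α, p α * (act α x).elim 0 f

/-- The kernel iterated `t` times. -/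
noncomputable def Kit (p : Sy H → ℝ) (t : ℕ) (f : H → ℝ) : H → ℝ := (Kop p)^[t] f

/-- Expected number of cards that are not drawn during `t` steps. -/
noncomputable def Mt (p : Sy H → ℝ) (t : ℕ) : ℝ := ∑ x, Kit p t (fun _ => 1) x

/-- Letters moved by a permutation of the gadget positions. -/
def smap (g : Perm H) : Sy H → Sy H
  | none => none
  | some (Sum.inl (a, b)) => some (Sum.inl (g a, g b))
  | some (Sum.inr v) => some (Sum.inr (g v))

end

/-! ## Module statements, algebraic part -/

/-- BRO: Broder's marking argument. -/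
def BroStatement : Prop :=
  ∀ (H B : Type) [Fintype H] [DecidableEq H] [Fintype B] [DecidableEq B], 1 ≤ Fintype.card B →
    ∀ k : ℕ, nrm ((bro H B) ^ k - EB H B) ≤
      2 * (Fintype.card B : ℝ) ^ 2 * (1 - 1 / (Fintype.card B : ℝ)) ^ k

/-- RED: removing the internal moves of the bulk. -/
def RedStatement : Prop :=
  ∀ (H B : Type) [Fintype H] [DecidableEq H] [Fintype B] [DecidableEq B],
    ∀ (ν : Alg (PV H B)) (β C ρ : ℝ), 0 ≤ β → 0 ≤ C → 0 ≤ ρ → nrm ν ≤ 1 - β →
      Commute ν (bro H B) → Commute ν (EB H B) →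
      (∀ k : ℕ, nrm ((bro H B) ^ k - EB H B) ≤ C * ρ ^ k) →
      ∀ t : ℕ, nrm ((β • bro H B + ν) ^ t - EB H B * (β • (1 : Alg (PV H B)) + ν) ^ t) ≤
        C * (1 - β * (1 - ρ)) ^ t

/-- U2: conditionally on the word the deck is uniform given its frozen cards, up to a path coupling
error. -/
def U2Statement : Prop :=
  ∀ (H B : Type) [Fintype H] [DecidableEq H] [Fintype B] [DecidableEq B], 1 ≤ Fintype.card B →
    Fintype.card H ≤ Fintype.card B → ∀ ω : List (Sy H),
      nrm (EB H B * wel B ω - US B (tr ω)) ≤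
        4 * ∑ x : H, if tr ω x = none then Lf (Fintype.card B : ℝ) ω x else 0

/-- EXP: expectation of the path coupling error. -/
def ExpStatement : Prop :=
  ∀ (H : Type) [Fintype H] [DecidableEq H] (N : ℕ), 2 * Fintype.card H ≤ N → 1 ≤ N →
    ∀ p : Sy H → ℝ, (∀ α, 0 ≤ p α) → ∑ α, p α ≤ 1 → ∀ t : ℕ,
      Ex p t (fun ω => ∑ x : H, if tr ω x = none then Lf (N : ℝ) ω x else 0) ≤
        (N : ℝ)⁻¹ * ∑ s ∈ Finset.range t,
          (∑ v, p (some (Sum.inr v)) * Kit p s (fun _ => 1) v) * Mt p (t - 1 - s) +
        2 * (Fintype.card H : ℝ) * (N : ℝ)⁻¹ ^ 2 * (∑ v, p (some (Sum.inr v))) *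
          ∑ s ∈ Finset.range t, Mt p (t - 1 - s)

section
variable {H : Type} [Fintype H] [DecidableEq H]

/-- Number of positions of `Up` on the same level as `x`. -/
def szl (lv : H → ℕ) (Up : Finset H) (x : H) : ℕ := (Up.filter fun z => lv z = lv x).card

/-- Good pairs for planting. -/
def GoodPair (lv : H → ℕ) (Up : Finset H) (r0 : ℕ) (A : ℝ) (x y : H) : Prop :=
  x ∈ Up ∧ y ∈ Up ∧ 2 * r0 ≤ szl lv Up x ∧ 2 * r0 ≤ szl lv Up y ∧
    A ≤ (szl lv Up x : ℝ) * (szl lv Up y : ℝ)

end

open Classical in
/-- U3: the mixture of the laws `US (tr ω)` is close to uniform. -/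
def U3Statement : Prop :=
  ∀ (H B : Type) [Fintype H] [DecidableEq H] [Fintype B] [DecidableEq B], 1 ≤ Fintype.card B →
    ∀ p : Sy H → ℝ, (∀ α, 0 ≤ p α) → ∑ α, p α ≤ 1 →
    ∀ (lv : H → ℕ) (Up : Finset H),
      (∀ x ∈ Up, ∀ x' ∈ Up, lv x = lv x' → ∀ α, p (smap (swap x x') α) = p α) →
    ∀ (r0 : ℕ) (A : ℝ), 1 ≤ r0 → 0 < A → ∀ t1 t2 : ℕ,
      nrm (Ex p (t1 + t2) (fun ω => US B (tr ω)) - (∑ α, p α) ^ (t1 + t2) • UU H B) ≤
        2 * ((∑ x, ∑ y, if GoodPair lv Up r0 A x y then 0 else
              Kit p (t1 + t2) (fun z => if z = y then 1 else 0) x) +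
            (∑ z ∈ Up, Kit p t1 (fun _ => 1) z * Kit p t2 (fun _ => 1) z) +
            (r0 : ℝ)⁻¹ * Mt p (t1 + t2)) +
        2 * Real.sqrt ((Fintype.card H + Fintype.card B : ℕ) / A) * Mt p (t1 + t2)

end Pool.Agent.Helper91_CW
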