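import Pool.Agent.Helper91_CW.Defs

set_option autoImplicit false

/-!
# Interface, part 2: walks on graphs, gadgets, level chains
-/

namespace Pool.Agent.Helper91_CW

open Equiv

/-! ## Upper and lower bounds for the abstract model -/

section
variable {H : Type} [Fintype H] [DecidableEq H]

/-- The step distribution of the abstract model: bulk steps with weight `β`, gadget letters with
weights `p'`, the special edge between `r1` and `r2` with weight `q`. -/
noncomputable def muOf (B : Type) [Fintype B] [DecidableEq B] (β q : ℝ) (p' : Sy H → ℝ)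
    (r1 r2 : H) : Alg (PV H B) :=
  β • bro H B + ∑ α, p' α • elt B α + q • pt (swap (Sum.inl r1) (Sum.inl r2))

/-- Letter weights with the bulk steps made idle. -/
def pOf (β : ℝ) (p' : Sy H → ℝ) : Sy H → ℝ := fun α => p' α + if α = none then β else 0

end

open Classical in
/-- UPPER: follows from BRO, RED, U2, EXP, U3. -/
def UpperStatement : Prop :=
  ∀ (H B : Type) [Fintype H] [DecidableEq H] [Fintype B] [DecidableEq B],
    1 ≤ Fintype.card B → 2 * Fintype.card H ≤ Fintype.card B →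
    ∀ (β q : ℝ) (p' : Sy H → ℝ) (r1 r2 : H), 0 < β → 0 ≤ q → (∀ α, 0 ≤ p' α) →
      β + ∑ α, p' α + q = 1 →
    ∀ (lv : H → ℕ) (Up : Finset H),
      (∀ x ∈ Up, ∀ x' ∈ Up, lv x = lv x' → ∀ α, p' (smap (swap x x') α) = p' α) →
    ∀ (r0 : ℕ) (A : ℝ), 1 ≤ r0 → 0 < A → ∀ t1 t2 : ℕ,
      nrm (muOf B β q p' r1 r2 ^ (t1 + t2) - UU H B) ≤
        4 * (Fintype.card B : ℝ) * (1 + Real.log (Fintype.card B)) / ((t1 + t2 + 1) * β) +
        3 * (1 - (1 - q) ^ (t1 + t2)) +
        4 * ((Fintype.card B : ℝ)⁻¹ * ∑ s ∈ Finset.range (t1 + t2),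
              (∑ v, p' (some (Sum.inr v)) * Kit (pOf β p') s (fun _ => 1) v) *
                Mt (pOf β p') (t1 + t2 - 1 - s) +
            2 * (Fintype.card H : ℝ) * (Fintype.card B : ℝ)⁻¹ ^ 2 *
              (∑ v, p' (some (Sum.inr v))) *
              ∑ s ∈ Finset.range (t1 + t2), Mt (pOf β p') (t1 + t2 - 1 - s)) +
        2 * ((∑ x, ∑ y, if GoodPair lv Up r0 A x y then 0 else
              Kit (pOf β p') (t1 + t2) (fun z => if z = y then 1 else 0) x) +
            (∑ z ∈ Up, Kit (pOf β p') t1 (fun _ => 1) z * Kit (pOf β p') t2 (fun _ => 1) z) +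
            (r0 : ℝ)⁻¹ * Mt (pOf β p') (t1 + t2)) +
        2 * Real.sqrt ((Fintype.card H + Fintype.card B : ℕ) / A) * Mt (pOf β p') (t1 + t2)

/-- LOWER: one crossing of the special edge. -/
def LowerStatement : Prop :=
  ∀ (H B : Type) [Fintype H] [DecidableEq H] [Fintype B] [DecidableEq B],
    1 ≤ Fintype.card B →
    ∀ (β q : ℝ) (p' : Sy H → ℝ) (r1 r2 : H), 0 < β → 0 ≤ q → (∀ α, 0 ≤ p' α) →
      β + ∑ α, p' α + q = 1 →
    ∀ (H1 H2 : Finset H), r1 ∈ H1 → r2 ∈ H2 → ∀ t : ℕ,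
      q * ∑ s ∈ Finset.range t,
          Kit (pOf β p') s (fun z => if z ∈ H1 then 1 else 0) r1 *
            Kit (pOf β p') (t - 1 - s) (fun z => if z ∈ H2 then 1 else 0) r2 -
        (H1.card : ℝ) * H2.card / (Fintype.card H + Fintype.card B : ℕ) ≤
      nrm (muOf B β q p' r1 r2 ^ t - UU H B)

/-! ## Walks on graphs -/

section
variable {V : Type} [Fintype V] [DecidableEq V]

/-- The law after `t` steps of the lazy walk on decks induced by the graph `G`, started from the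
identity deck: with probability `1/2` nothing happens, otherwise a uniform vertex `v` and a uniform
neighbour `w` of `v` are chosen and the cards at `v` and `w` are exchanged. -/
noncomputable def walkLaw (G : SimpleGraph V) [DecidableRel G.Adj] : ℕ → Perm V → ℝ
  | 0, σ => if σ = 1 then 1 else 0
  | t + 1, σ => (1 / 2) * walkLaw G t σ +
      (1 / 2) * ∑ v, ∑ w ∈ G.neighborFinset v,
        (1 / (Fintype.card V : ℝ)) * (1 / (G.degree v : ℝ)) * walkLaw G t (swap v w * σ)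

/-- Total variation distance to the uniform distribution after `t` steps. -/
noncomputable def tvD (G : SimpleGraph V) [DecidableRel G.Adj] (t : ℕ) : ℝ :=
  (1 / 2) * ∑ σ : Perm V, |walkLaw G t σ - 1 / ((Fintype.card V).factorial : ℝ)|

/-- The step distribution of the walk. -/
noncomputable def stepOf (G : SimpleGraph V) [DecidableRel G.Adj] : Alg (Perm V) :=
  (1 / 2 : ℝ) • 1 + (1 / 2 : ℝ) • ∑ v, ∑ w ∈ G.neighborFinset v,
    ((1 / (Fintype.card V : ℝ)) * (1 / (G.degree v : ℝ))) • pt (swap v w)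

end

/-- WALK: the law of the walk is the convolution power of the step distribution. -/
def WalkStatement : Prop :=
  ∀ (V : Type) [Fintype V] [DecidableEq V] (G : SimpleGraph V) [DecidableRel G.Adj] (t : ℕ)
    (σ : Perm V), (stepOf G ^ t).coeff σ = walkLaw G t σ

/-! ## Gadgets -/

/-- Parameters of a gadget. -/
structure GP where
  /-- size of level `0` -/
  M : ℕ
  /-- slope of the connection density in the core -/
  k : ℕ
  /-- offset of the levels -/
  x0 : ℕ
  /-- number of core levels -/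
  lc : ℕ
  /-- number of main levels -/
  hm : ℕ

namespace GP

/-- The top level. -/
def h (g : GP) : ℕ := g.lc + g.hm

/-- Connection width between the levels `l` and `l + 1`. -/
def w (g : GP) (l : ℕ) : ℕ := if l < g.lc then g.k * (l + g.x0) else g.M

/-- Vertices: `(level, a, b)`. -/
abbrev X (g : GP) : Type := Σ l : Fin (g.h + 1), Fin g.M × Fin (2 ^ (l : ℕ))

/-- `y` is one level above `x` and joined to it. -/
def above (g : GP) (x y : g.X) : Prop :=
  (y.1 : ℕ) = x.1 + 1 ∧ ((y.2.1 : ℕ) + g.M - x.2.1) % g.M < g.w x.1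

instance (g : GP) (x y : g.X) : Decidable (g.above x y) := by unfold above; infer_instance

/-- Adjacency inside a gadget: levels are cliques. -/
def adj (g : GP) (x y : g.X) : Prop :=
  x ≠ y ∧ (x.1 = y.1 ∨ g.above x y ∨ g.above y x)

instance (g : GP) (x y : g.X) : Decidable (g.adj x y) := by unfold adj; infer_instance

/-- Degree of a vertex of level `l` (without the special edge); `N` is the size of the bulk. -/
noncomputable def dg (g : GP) (N : ℕ) (l : ℕ) : ℝ :=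
  (g.M : ℝ) * 2 ^ l - 1 + (if l < g.h then (g.w l : ℝ) * 2 ^ (l + 1) else N) +
    (if 0 < l then (g.w (l - 1) : ℝ) * 2 ^ (l - 1) else 0)

/-- Half the upward rate from level `l` to level `l + 1` = downward rate from `l + 1` to `l`; `n` is
the number of all vertices. -/
noncomputable def rh (g : GP) (n N : ℕ) (l : ℕ) : ℝ :=
  (g.w l : ℝ) * 2 ^ l * (1 / (2 * n)) * (1 / g.dg N l + 1 / g.dg N (l + 1))

/-- Admissible parameters. -/
structure Ok (g : GP) : Prop where
  M_pos : 2 ≤ g.M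
  k_pos : 1 ≤ g.k
  x0_pos : 1 ≤ g.x0
  lc_pos : 1 ≤ g.lc
  hm_ge : 4 ≤ g.hm
  w_le : g.k * (g.lc + g.x0) ≤ g.M

end GP

/-- Gadget positions. -/
abbrev HH (g1 g2 : GP) : Type := g1.X ⊕ g2.X

/-- The root of a gadget. -/
def GP.root (g : GP) (hM : 0 < g.M) : g.X := ⟨⟨0, Nat.succ_pos _⟩, ⟨0, hM⟩, ⟨0, by simp⟩⟩

/-- Adjacency of the big graph. -/
def bigAdj (g1 g2 : GP) (N : ℕ) : (HH g1 g2) ⊕ Fin N → (HH g1 g2) ⊕ Fin N → Prop
  | Sum.inl (Sum.inl x), Sum.inl (Sum.inl y) => g1.adj x y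
  | Sum.inl (Sum.inr x), Sum.inl (Sum.inr y) => g2.adj x y
  | Sum.inl (Sum.inl x), Sum.inl (Sum.inr y) =>
      (x.1 : ℕ) = 0 ∧ (x.2.1 : ℕ) = 0 ∧ (y.1 : ℕ) = 0 ∧ (y.2.1 : ℕ) = 0
  | Sum.inl (Sum.inr y), Sum.inl (Sum.inl x) =>
      (x.1 : ℕ) = 0 ∧ (x.2.1 : ℕ) = 0 ∧ (y.1 : ℕ) = 0 ∧ (y.2.1 : ℕ) = 0
  | Sum.inl (Sum.inl x), Sum.inr _ => (x.1 : ℕ) = g1.h
  | Sum.inr _, Sum.inl (Sum.inl x) => (x.1 : ℕ) = g1.h
  | Sum.inl (Sum.inr x), Sum.inr _ => (x.1 : ℕ) = g2.h
  | Sum.inr _, Sum.inl (Sum.inr x) => (x.1 : ℕ) = g2.h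
  | Sum.inr w, Sum.inr w' => w ≠ w'

/-! ## Level chains -/

/-- One gadget reduced to levels: `K` is the one-card kernel. -/
structure LC (X : Type) [Fintype X] where
  K : (X → ℝ) → (X → ℝ)
  lev : X → ℕ
  h : ℕ
  M : ℕ
  rh : ℕ → ℝ
  dl : ℝ
  q : ℝ
  τ : ℝ
  lev_le : ∀ x, lev x ≤ h
  card_lev : ∀ l ≤ h, (Finset.univ.filter fun x => lev x = l).card = M * 2 ^ l
  K_add : ∀ f g, K (fun x => f x + g x) = fun x => K f x + K g x
  K_smul : ∀ (c : ℝ) f, K (fun x => c * f x) = fun x => c * K f x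
  K_nonneg : ∀ f, (∀ x, 0 ≤ f x) → ∀ x, 0 ≤ K f x
  K_symm : ∀ f g, ∑ x, f x * K g x = ∑ x, K f x * g x
  rh_nonneg : ∀ l, 0 ≤ rh l
  q_nonneg : 0 ≤ q
  q_le : q ≤ 1
  step : ∀ x, ∃ u d : ℝ, 2 * rh (lev x) * (1 - τ) ≤ u ∧ u ≤ 2 * rh (lev x) ∧
    rh (lev x - 1) * (1 - τ) ≤ d ∧ d ≤ rh (lev x - 1) ∧ ∀ f : ℕ → ℝ,
      K (fun y => f (lev y)) x = (1 - q) * f (lev x) +
        (if lev x < h then u * (f (lev x + 1) - f (lev x)) else - dl * f (lev x)) +
        (if 0 < lev x then d * (f (lev x - 1) - f (lev x)) else 0)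

end Pool.Agent.Helper91_CW
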