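import Pool.Agent.Helper91_CW.Core

set_option autoImplicit false
set_option linter.unusedSectionVars false
set_option linter.unusedSimpArgs false

/-!
# Module U2: path coupling
-/

namespace Pool.Agent.Helper91_CW

open Equiv

section
variable {H : Type} [Fintype H] [DecidableEq H]
variable {B : Type} [Fintype B] [DecidableEq B]

theorem Lf_nonneg {N : ℝ} (hN : 0 ≤ N) : ∀ (ω : List (Sy H)) (x : H), 0 ≤ Lf N ω x
  | [], _ => by simp [Lf]
  | none :: ω, x => by simpa [Lf] using Lf_nonneg hN ω x
  | some (Sum.inl (a, b)) :: ω, x => by simpa [Lf] using Lf_nonneg hN ω _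
  | some (Sum.inr v) :: ω, x => by
    have h1 := Lf_nonneg hN ω x
    have h2 := Lf_nonneg hN ω v
    have h3 : 0 ≤ N⁻¹ := inv_nonneg.mpr hN
    rw [Lf]
    split_ifs <;> positivity

theorem swap_inl_inl (a b x : H) :
    swap (Sum.inl a) (Sum.inl b) (Sum.inl x : H ⊕ B) = Sum.inl (swap a b x) := by
  rcases eq_or_ne x a with rfl | hxa
  · simp
  rcases eq_or_ne x b with rfl | hxb
  · simp
  rw [swap_apply_of_ne_of_ne hxa hxb, swap_apply_of_ne_of_ne (by simpa using hxa)
    (by simpa using hxb)]

theorem swap_inl_inr (a b : H) (c : B) :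
    swap (Sum.inl a) (Sum.inl b) (Sum.inr c : H ⊕ B) = Sum.inr c :=
  swap_apply_of_ne_of_ne (by simp) (by simp)

/-- A bulk permutation commutes with every letter. -/
theorem pt_mul_elt (τ : Perm B) (α : Sy H) :
    pt (Perm.sumCongr (1 : Perm H) τ) * elt B α = elt B α * pt (Perm.sumCongr (1 : Perm H) τ) := by
  rcases α with _ | ⟨a, b⟩ | v
  · simp [elt]
  · simp only [elt, pt_mul_pt]
    congr 1
    rw [Equiv.mul_swap_eq_swap_mul]
    simp
  · simp only [elt, kap, mul_smul_comm, smul_mul_assoc, Finset.mul_sum, Finset.sum_mul, pt_mul_pt]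
    congr 1
    refine Fintype.sum_equiv τ _ _ (fun w => ?_)
    congr 1
    rw [Equiv.mul_swap_eq_swap_mul]
    simp

/-- The law of a word followed by the uniform distribution on the bulk. -/
noncomputable def Aw (B : Type) [Fintype B] [DecidableEq B] (ω : List (Sy H)) : Alg (PV H B) :=
  EB H B * wel B ω

theorem Aw_cons (α : Sy H) (ω : List (Sy H)) : Aw B (α :: ω) = Aw B ω * elt B α := by
  simp [Aw, wel, mul_assoc]

theorem Aw_inv (τ : Perm B) : ∀ ω : List (Sy H),
    Aw B ω * pt (Perm.sumCongr (1 : Perm H) τ) = Aw B ω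
  | [] => by
    simp only [Aw, wel, mul_one]
    rw [EB_eq]
    exact uS_mul_pt (mem_fixS.mp (sumCongr_mem_fixS τ))
  | α :: ω => by
    rw [Aw_cons, mul_assoc, ← pt_mul_elt, ← mul_assoc, Aw_inv τ ω]

theorem Aw_swap (ω : List (Sy H)) (b b' : B) :
    Aw B ω * pt (swap (Sum.inr b) (Sum.inr b')) = Aw B ω := by
  have h := Aw_inv (H := H) (swap b b') ω
  have : Perm.sumCongr (1 : Perm H) (swap b b') = swap (Sum.inr b) (Sum.inr b') := by
    ext (x | c)
    · simp [swap_apply_of_ne_of_ne]
    · simp only [Perm.sumCongr_apply, Sum.map_inr]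
      rcases eq_or_ne c b with rfl | h1
      · simp
      rcases eq_or_ne c b' with rfl | h2
      · simp
      rw [swap_apply_of_ne_of_ne h1 h2, swap_apply_of_ne_of_ne (by simpa using h1)
        (by simpa using h2)]
  rwa [this] at h

theorem nrm_kap_le (v : H) : nrm (kap B v) ≤ 1 := by
  unfold kap
  rw [nrm_smul, abs_of_nonneg (by positivity)]
  have h1 : nrm (∑ w : B, pt (swap (Sum.inl v : H ⊕ B) (Sum.inr w))) ≤ Fintype.card B := by
    refine (nrm_sum_le _ _).trans ?_
    rw [Finset.sum_congr rfl (fun w _ => nrm_pt _)]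
    simp
  rcases Nat.eq_zero_or_pos (Fintype.card B) with h | h
  · simp [h]
  · have : (0 : ℝ) < Fintype.card B := by exact_mod_cast h
    rw [inv_mul_le_iff₀ this, mul_one]; exact h1

theorem nrm_elt_le (α : Sy H) : nrm (elt B α) ≤ 1 := by
  rcases α with _ | ⟨a, b⟩ | v
  · simp only [elt]
    rw [← pt_one, nrm_pt]
  · simp only [elt]; rw [nrm_pt]
  · exact nrm_kap_le v

theorem nrm_wel_le : ∀ ω : List (Sy H), nrm (wel B ω) ≤ 1
  | [] => by simp only [wel]; rw [← pt_one, nrm_pt]
  | α :: ω => by
    simp only [wel]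
    have h1 := nrm_wel_le ω
    have h2 := nrm_elt_le (B := B) α
    calc nrm (wel B ω * elt B α) ≤ nrm (wel B ω) * nrm (elt B α) := nrm_mul_le _ _
      _ ≤ 1 * 1 := mul_le_mul h1 h2 (nrm_nonneg _) (by norm_num)
      _ = 1 := by norm_num

theorem nrm_EB_le : nrm (EB H B) ≤ 1 := by rw [EB_eq]; exact nrm_uS_le _

theorem nrm_Aw_le (ω : List (Sy H)) : nrm (Aw B ω) ≤ 1 := by
  calc nrm (Aw B ω) ≤ nrm (EB H B) * nrm (wel B ω) := nrm_mul_le _ _
    _ ≤ 1 * 1 := mul_le_mul nrm_EB_le (nrm_wel_le ω) (nrm_nonneg _) (by norm_num)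
    _ = 1 := by norm_num

/-- Effect of exchanging two cards at the start. -/
noncomputable def Dp (B : Type) [Fintype B] [DecidableEq B] (ω : List (Sy H)) (x y : H ⊕ B) : ℝ :=
  nrm (Aw B ω * pt (swap x y) - Aw B ω)

theorem Dp_le_two (ω : List (Sy H)) (x y : H ⊕ B) : Dp B ω x y ≤ 2 := by
  unfold Dp
  have := nrm_sub_le (Aw B ω * pt (swap x y)) (Aw B ω)
  rw [nrm_mul_pt] at this
  linarith [nrm_Aw_le (B := B) ω]

theorem Dp_comm (ω : List (Sy H)) (x y : H ⊕ B) : Dp B ω x y = Dp B ω y x := by
  unfold Dp; rw [swap_comm]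

theorem Dp_self (ω : List (Sy H)) (x : H ⊕ B) : Dp B ω x x = 0 := by
  unfold Dp
  rw [swap_self]
  change nrm (Aw B ω * pt 1 - Aw B ω) = 0
  simp

theorem Dp_bulk (ω : List (Sy H)) (b b' : B) : Dp B ω (Sum.inr b) (Sum.inr b') = 0 := by
  unfold Dp; rw [Aw_swap]; simp

theorem Dp_mul (ω : List (Sy H)) (f : Perm (H ⊕ B)) (x y : H ⊕ B) :
    nrm (Aw B ω * pt f * pt (swap x y) - Aw B ω * pt f) = Dp B ω (f x) (f y) := by
  have : Aw B ω * pt f * pt (swap x y) - Aw B ω * pt f =
      (Aw B ω * pt (swap (f x) (f y)) - Aw B ω) * pt f := by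
    rw [mul_assoc, pt_mul_pt, Equiv.mul_swap_eq_swap_mul, ← pt_mul_pt, sub_mul, mul_assoc]
  rw [this, nrm_mul_pt]; rfl

theorem Dp_none (ω : List (Sy H)) (x y : H ⊕ B) : Dp B (none :: ω) x y = Dp B ω x y := by
  unfold Dp; rw [Aw_cons]; simp [elt]

theorem Dp_ex (ω : List (Sy H)) (a b : H) (x y : H ⊕ B) :
    Dp B (some (Sum.inl (a, b)) :: ω) x y =
      Dp B ω (swap (Sum.inl a) (Sum.inl b) x) (swap (Sum.inl a) (Sum.inl b) y) := by
  rw [← Dp_mul]
  unfold Dp; rw [Aw_cons]; simp [elt]

theorem Dp_draw (ω : List (Sy H)) (v : H) (x y : H ⊕ B) :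
    Dp B (some (Sum.inr v) :: ω) x y ≤ (Fintype.card B : ℝ)⁻¹ * ∑ w : B,
      Dp B ω (swap (Sum.inl v) (Sum.inr w) x) (swap (Sum.inl v) (Sum.inr w) y) := by
  have h1 : Aw B (some (Sum.inr v) :: ω) * pt (swap x y) - Aw B (some (Sum.inr v) :: ω) =
      (Fintype.card B : ℝ)⁻¹ • ∑ w : B, (Aw B ω * pt (swap (Sum.inl v) (Sum.inr w)) *
        pt (swap x y) - Aw B ω * pt (swap (Sum.inl v) (Sum.inr w))) := by
    rw [Aw_cons]
    simp only [elt, kap, mul_smul_comm, smul_mul_assoc, Finset.mul_sum, Finset.sum_mul]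
    rw [← smul_sub, Finset.sum_sub_distrib]
  unfold Dp
  rw [h1, nrm_smul, abs_of_nonneg (by positivity)]
  apply mul_le_mul_of_nonneg_left _ (by positivity)
  refine (nrm_sum_le _ _).trans (Finset.sum_le_sum fun w _ => ?_)
  rw [Dp_mul]; rfl

/-- The two bounds of the path coupling. -/
theorem path_bounds (hB : 1 ≤ Fintype.card B) : ∀ ω : List (Sy H),
    (∀ (x : H) (m : B), Dp B ω (Sum.inl x) (Sum.inr m) ≤ 2 * Lf (Fintype.card B : ℝ) ω x) ∧
    (∀ x y : H, Dp B ω (Sum.inl x) (Sum.inl y) ≤
      2 * (Lf (Fintype.card B : ℝ) ω x + Lf (Fintype.card B : ℝ) ω y))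
  | [] => by
    constructor
    · intro x m
      simpa [Lf] using Dp_le_two [] (Sum.inl x) (Sum.inr m : H ⊕ B)
    · intro x y
      simp only [Lf]
      linarith [Dp_le_two [] (Sum.inl x) (Sum.inl y : H ⊕ B)]
  | none :: ω => by
    obtain ⟨h1, h2⟩ := path_bounds hB ω
    constructor
    · intro x m
      rw [Dp_none]; simpa [Lf] using h1 x m
    · intro x y
      rw [Dp_none]; simpa [Lf] using h2 x y
  | some (Sum.inl (a, b)) :: ω => by
    obtain ⟨h1, h2⟩ := path_bounds hB ω
    constructor
    · intro x m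
      rw [Dp_ex, swap_inl_inl, swap_inl_inr]
      simpa [Lf] using h1 _ m
    · intro x y
      rw [Dp_ex, swap_inl_inl, swap_inl_inl]
      simpa [Lf] using h2 _ _
  | some (Sum.inr v) :: ω => by
    obtain ⟨h1, h2⟩ := path_bounds hB ω
    set N : ℝ := (Fintype.card B : ℝ) with hN
    have hN1 : (1 : ℝ) ≤ N := by rw [hN]; exact_mod_cast hB
    have hN0 : (0 : ℝ) < N := by linarith
    have hL : ∀ x, 0 ≤ Lf N ω x := fun x => Lf_nonneg hN0.le ω x
    constructor
    · intro x m
      refine (Dp_draw ω v _ _).trans ?_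
      rw [← hN]
      by_cases hx : x = v
      · subst hx
        have hterm : ∀ w : B, Dp B ω (swap (Sum.inl x) (Sum.inr w) (Sum.inl x : H ⊕ B))
            (swap (Sum.inl x) (Sum.inr w) (Sum.inr m)) ≤ if w = m then 2 * Lf N ω x else 0 := by
          intro w
          by_cases hw : w = m
          · subst hw
            rw [swap_apply_left, swap_apply_right, if_pos rfl, Dp_comm]
            exact h1 x w
          · rw [swap_apply_left, swap_apply_of_ne_of_ne (by simp) (by simpa using Ne.symm hw),
              if_neg hw, Dp_bulk]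
        have hsum := Finset.sum_le_sum fun w (_ : w ∈ Finset.univ) => hterm w
        rw [Finset.sum_ite_eq' Finset.univ m, if_pos (Finset.mem_univ _)] at hsum
        rw [Lf, if_pos rfl, zero_add]
        calc N⁻¹ * _ ≤ N⁻¹ * (2 * Lf N ω x) := mul_le_mul_of_nonneg_left hsum (by positivity)
          _ = 2 * (N⁻¹ * Lf N ω x) := by ring
      · have hterm : ∀ w : B, Dp B ω (swap (Sum.inl v) (Sum.inr w) (Sum.inl x : H ⊕ B))
            (swap (Sum.inl v) (Sum.inr w) (Sum.inr m)) ≤
              2 * Lf N ω x + if w = m then 2 * Lf N ω v else 0 := by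
          intro w
          rw [swap_apply_of_ne_of_ne (by simpa using hx) (by simp)]
          by_cases hw : w = m
          · subst hw
            rw [swap_apply_right, if_pos rfl]
            linarith [h2 x v]
          · rw [swap_apply_of_ne_of_ne (by simp) (by simpa using Ne.symm hw),
              if_neg hw, add_zero]
            exact h1 x m
        have hsum := Finset.sum_le_sum fun w (_ : w ∈ Finset.univ) => hterm w
        rw [Finset.sum_add_distrib, Finset.sum_ite_eq' Finset.univ m,
          if_pos (Finset.mem_univ _), Finset.sum_const, Finset.card_univ, nsmul_eq_mul,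
          ← hN] at hsum
        rw [Lf, if_neg hx]
        calc N⁻¹ * _ ≤ N⁻¹ * (N * (2 * Lf N ω x) + 2 * Lf N ω v) :=
              mul_le_mul_of_nonneg_left hsum (by positivity)
          _ = 2 * (Lf N ω x + N⁻¹ * Lf N ω v) := by field_simp
    · intro x y
      by_cases hxy : x = y
      · subst hxy
        rw [Dp_self]
        have := Lf_nonneg (N := N) hN0.le (some (Sum.inr v) :: ω) x
        linarith
      refine (Dp_draw ω v _ _).trans ?_
      rw [← hN]
      have hmono : ∀ z, z ≠ v → Lf N ω z ≤ Lf N (some (Sum.inr v) :: ω) z := by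
        intro z hz
        rw [Lf, if_neg hz]
        have := mul_nonneg (inv_nonneg.mpr hN0.le) (hL v)
        linarith
      have hnn : ∀ z, 0 ≤ Lf N (some (Sum.inr v) :: ω) z := fun z => Lf_nonneg hN0.le _ z
      have key : ∀ w : B, Dp B ω (swap (Sum.inl v) (Sum.inr w) (Sum.inl x : H ⊕ B))
          (swap (Sum.inl v) (Sum.inr w) (Sum.inl y)) ≤
            2 * (Lf N (some (Sum.inr v) :: ω) x + Lf N (some (Sum.inr v) :: ω) y) := by
        intro w
        by_cases hx : x = v
        · have hy : y ≠ v := fun h => hxy (hx.trans h.symm)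
          subst hx
          rw [swap_apply_left, swap_apply_of_ne_of_ne (by simpa using hy) (by simp), Dp_comm]
          linarith [h1 y w, hmono y hy, hnn x]
        · by_cases hy : y = v
          · subst hy
            rw [swap_apply_left, swap_apply_of_ne_of_ne (by simpa using hx) (by simp)]
            linarith [h1 x w, hmono x hx, hnn y]
          · rw [swap_apply_of_ne_of_ne (by simpa using hx) (by simp),
              swap_apply_of_ne_of_ne (by simpa using hy) (by simp)]
            linarith [h2 x y, hmono x hx, hmono y hy]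
      have hsum := Finset.sum_le_sum fun w (_ : w ∈ Finset.univ) => key w
      rw [Finset.sum_const, Finset.card_univ, nsmul_eq_mul, ← hN] at hsum
      calc N⁻¹ * _ ≤ N⁻¹ * (N * _) := mul_le_mul_of_nonneg_left hsum (by positivity)
        _ = _ := by field_simp

/-- Killing one card of a partial map. -/
theorem US_mul_uS {S S' : H → Option H} (hS : (ext B S).Nonempty)
    (hsub : ∀ x y, S' x = some y → S x = some y) :
    US B S * uS (free B S') = US B S' := by
  obtain ⟨σ0, h0⟩ := hS
  have h0' : σ0 ∈ ext B S' := by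
    rw [mem_ext] at h0 ⊢
    exact fun x y h => h0 x y (hsub x y h)
  rw [US_eq_of_mem h0, US_eq_of_mem h0', mul_assoc, uS_mul_uS_right]
  rintro (x | b) hz
  · rw [inl_mem_free] at hz ⊢
    by_contra hne
    obtain ⟨y, hy⟩ := Option.ne_none_iff_exists'.mp hne
    rw [hsub x y hy] at hz
    exact absurd hz (by simp)
  · simp

theorem tr_inj : ∀ (ω : List (Sy H)) (x x' y : H), tr ω x = some y → tr ω x' = some y → x = x'
  | [], x, x', y, h, h' => by
    simp only [tr, Option.some.injEq] at h h'
    rw [h, h']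
  | none :: ω, x, x', y, h, h' => by
    simp only [tr, act, Option.bind_some] at h h'
    exact tr_inj ω x x' y h h'
  | some (Sum.inl (a, b)) :: ω, x, x', y, h, h' => by
    simp only [tr, act, Option.bind_some] at h h'
    exact (swap a b).injective (tr_inj ω _ _ y h h')
  | some (Sum.inr v) :: ω, x, x', y, h, h' => by
    simp only [tr, act] at h h'
    split_ifs at h h' with h1 h2 <;> simp only [Option.bind_some, Option.bind_none] at h h'
    all_goals first | exact tr_inj ω x x' y h h' | simp at h | simp at h'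

theorem ext_tr_nonempty (ω : List (Sy H)) : (ext B (tr ω)).Nonempty :=
  ext_nonempty (tr_inj ω)

/-- Averaging over the free cards gives the conditional law. -/
theorem wel_mul_uS (hB : 1 ≤ Fintype.card B) : ∀ ω : List (Sy H),
    wel B ω * uS (free B (tr ω)) = US B (tr ω)
  | [] => by
    have h1 : US B (tr ([] : List (Sy H))) = EB H B := by
      have : tr ([] : List (Sy H)) = fun x => some x := by ext x; simp [tr]
      rw [this, US_some]
    have h2 : free B (tr ([] : List (Sy H))) = bulk H B := by
      ext (x | b) <;> simp [tr]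
    rw [h1, h2, EB_eq]
    simp [wel]
  | none :: ω => by
    have h : tr (none :: ω) = tr ω := by ext x; simp [tr, act]
    rw [h]
    simpa [wel, elt] using wel_mul_uS hB ω
  | some (Sum.inl (a, b)) :: ω => by
    have ih := wel_mul_uS hB ω
    have htr : tr (some (Sum.inl (a, b)) :: ω) = fun x => tr ω (swap a b x) := by
      ext x; simp [tr, act]
    have hsw : (Perm.sumCongr (swap a b) (1 : Perm B)) = swap (Sum.inl a) (Sum.inl b) := by
      ext (x | c)
      · simp only [Perm.sumCongr_apply, Sum.map_inl]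
        rcases eq_or_ne x a with rfl | hxa
        · simp
        rcases eq_or_ne x b with rfl | hxb
        · simp
        rw [swap_apply_of_ne_of_ne hxa hxb, swap_apply_of_ne_of_ne (by simpa using hxa)
          (by simpa using hxb)]
      · simp [swap_apply_of_ne_of_ne]
    have h1 : US B (tr ω) * pt (swap (Sum.inl a) (Sum.inl b)) =
        US B (tr (some (Sum.inl (a, b)) :: ω)) := by
      have := pt_US_pt (B := B) (tr ω) 1 (swap a b)
      rw [hsw] at this
      have h1' : Perm.sumCongr (1 : Perm H) (1 : Perm B) = 1 := by ext (x | b) <;> simp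
      rw [h1', pt_one, one_mul] at this
      rw [this, htr]
      congr 1
      ext x
      simp
    have himg : (free B (tr (some (Sum.inl (a, b)) :: ω))).image
        (swap (Sum.inl a) (Sum.inl b)) = free B (tr ω) := by
      ext (x | c)
      · simp only [Finset.mem_image, inl_mem_free]
        constructor
        · rintro ⟨z | c, hz, hzz⟩
          · rw [inl_mem_free, htr] at hz
            rw [swap_inl_inl, Sum.inl.injEq] at hzz
            rw [← hzz]; exact hz
          · rw [swap_inl_inr] at hzz
            simp at hzz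
        · intro hx
          refine ⟨Sum.inl (swap a b x), ?_, ?_⟩
          · rw [inl_mem_free, htr]; simpa using hx
          · rw [swap_inl_inl, swap_apply_self]
      · simp only [Finset.mem_image, inr_mem_free, iff_true]
        exact ⟨Sum.inr c, by simp, swap_inl_inr _ _ _⟩
    rw [wel, elt, mul_assoc, pt_mul_uS_comm, himg, ← mul_assoc, ih, h1]
  | some (Sum.inr v) :: ω => by
    have ih := wel_mul_uS hB ω
    have htr : tr (some (Sum.inr v) :: ω) = fun x => if x = v then none else tr ω x := by
      ext x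
      simp only [tr, act]
      split_ifs <;> simp
    have habs : elt B (some (Sum.inr v)) * uS (free B (tr (some (Sum.inr v) :: ω))) =
        uS (free B (tr (some (Sum.inr v) :: ω))) := by
      simp only [elt, kap, smul_mul_assoc, Finset.sum_mul]
      have hterm : ∀ w : B, pt (swap (Sum.inl v) (Sum.inr w)) *
          uS (free B (tr (some (Sum.inr v) :: ω))) = uS (free B (tr (some (Sum.inr v) :: ω))) := by
        intro w
        apply pt_mul_uS
        intro z hz
        apply swap_apply_of_ne_of_ne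
        · rintro rfl
          apply hz
          rw [inl_mem_free, htr]; simp
        · rintro rfl
          exact hz inr_mem_free
      rw [Finset.sum_congr rfl (fun w _ => hterm w), Finset.sum_const, Finset.card_univ,
        ← Nat.cast_smul_eq_nsmul ℝ, smul_smul, inv_mul_cancel₀, one_smul]
      have : (1 : ℝ) ≤ Fintype.card B := by exact_mod_cast hB
      positivity
    have hsub : free B (tr ω) ⊆ free B (tr (some (Sum.inr v) :: ω)) := by
      rintro (x | c) hz
      · rw [inl_mem_free] at hz ⊢
        rw [htr]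
        simp [hz]
      · simp
    rw [wel, mul_assoc, habs, ← uS_mul_uS_right hsub, ← mul_assoc, ih]
    apply US_mul_uS (ext_tr_nonempty ω)
    intro x y hxy
    rw [htr] at hxy
    simp only at hxy
    split_ifs at hxy
    exact hxy

theorem EB_mul_US (S : H → Option H) : EB H B * US B S = US B S := by
  have h : ∀ τ : Perm B, pt (Perm.sumCongr (1 : Perm H) τ) * US B S = US B S := by
    intro τ
    unfold US
    rw [pt_mul_unif]
    congr 1
    ext σ
    simp only [Finset.mem_image, mem_ext]
    constructor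
    · rintro ⟨σ', h', rfl⟩ x y hxy
      rw [Perm.mul_apply, h' x y hxy]; simp
    · intro hσ
      refine ⟨(Perm.sumCongr (1 : Perm H) τ)⁻¹ * σ, ?_, by group⟩
      intro x y hxy
      rw [Perm.mul_apply, hσ x y hxy, Perm.inv_eq_iff_eq]; simp
  unfold EB
  rw [smul_mul_assoc, Finset.sum_mul, Finset.sum_congr rfl (fun τ _ => h τ), Finset.sum_const,
    Finset.card_univ, Fintype.card_perm, ← Nat.cast_smul_eq_nsmul ℝ, smul_smul, inv_mul_cancel₀,
    one_smul]
  exact_mod_cast (Nat.factorial_pos _).ne'

theorem Aw_mul_uS (hB : 1 ≤ Fintype.card B) (ω : List (Sy H)) :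
    Aw B ω * uS (free B (tr ω)) = US B (tr ω) := by
  rw [Aw, mul_assoc, wel_mul_uS hB, EB_mul_US]

theorem Aw_mul_bulk (ω : List (Sy H)) : Aw B ω * uS (bulk H B) = Aw B ω := by
  rw [← EB_eq]
  unfold EB
  rw [mul_smul_comm, Finset.mul_sum, Finset.sum_congr rfl (fun τ _ => Aw_inv τ ω),
    Finset.sum_const, Finset.card_univ, Fintype.card_perm, ← Nat.cast_smul_eq_nsmul ℝ, smul_smul,
    inv_mul_cancel₀, one_smul]
  exact_mod_cast (Nat.factorial_pos _).ne'

/-- The bulk together with a set of cards. -/
def plus (B : Type) [Fintype B] [DecidableEq B] (F : Finset H) : Finset (H ⊕ B) :=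
  bulk H B ∪ F.image Sum.inl

theorem plus_insert (x : H) (F : Finset H) :
    plus B (insert x F) = insert (Sum.inl x) (plus B F) := by
  ext z
  simp only [plus, Finset.image_insert, Finset.mem_union, Finset.mem_insert]
  tauto

theorem card_plus (F : Finset H) : (plus B F).card = Fintype.card B + F.card := by
  unfold plus
  rw [Finset.card_union_of_disjoint, Finset.card_image_of_injective _ Sum.inl_injective]
  · congr 1
    have : bulk H B = (Finset.univ : Finset B).image Sum.inr := by
      ext (x | b) <;> simp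
    rw [this, Finset.card_image_of_injective _ Sum.inr_injective, Finset.card_univ]
  · rw [Finset.disjoint_left]
    rintro z hz hz'
    rw [Finset.mem_image] at hz'
    obtain ⟨x, _, rfl⟩ := hz'
    simp at hz

theorem main_bound (hB : 1 ≤ Fintype.card B) (ω : List (Sy H)) (F : Finset H) :
    nrm (Aw B ω - Aw B ω * uS (plus B F)) ≤
      2 * (1 + (F.card : ℝ) / Fintype.card B) * ∑ x ∈ F, Lf (Fintype.card B : ℝ) ω x := by
  set N : ℝ := (Fintype.card B : ℝ) with hN
  have hN1 : (1 : ℝ) ≤ N := by rw [hN]; exact_mod_cast hB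
  have hN0 : (0 : ℝ) < N := by linarith
  have hL : ∀ x, 0 ≤ Lf N ω x := fun x => Lf_nonneg hN0.le ω x
  obtain ⟨h1, h2⟩ := path_bounds hB ω
  rw [← hN] at h1 h2
  induction F using Finset.induction_on with
  | empty =>
    have : plus B (∅ : Finset H) = bulk H B := by simp [plus]
    rw [this, Aw_mul_bulk]; simp
  | insert x F hx ih =>
    have hx' : (Sum.inl x : H ⊕ B) ∉ plus B F := by
      simp [plus, hx]
    rw [plus_insert, uS_insert hx']
    set av : Alg (PV H B) :=
      (((plus B F).card : ℝ) + 1)⁻¹ • ∑ y ∈ insert (Sum.inl x) (plus B F), pt (swap (Sum.inl x) y)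
      with hav
    have hc : ((plus B F).card : ℝ) = N + F.card := by
      rw [card_plus]; push_cast; rfl
    have hpos : (0 : ℝ) < N + F.card + 1 := by positivity
    have hnav : nrm av ≤ 1 := by
      rw [hav, nrm_smul, abs_of_nonneg (by positivity)]
      have : nrm (∑ y ∈ insert (Sum.inl x) (plus B F), pt (swap (Sum.inl x) y)) ≤
          ((plus B F).card : ℝ) + 1 := by
        refine (nrm_sum_le _ _).trans ?_
        rw [Finset.sum_congr rfl (fun w _ => nrm_pt _), Finset.sum_const,
          Finset.card_insert_of_notMem hx']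
        simp
      rw [inv_mul_le_iff₀ (by positivity), mul_one]; exact this
    have hsplit : Aw B ω - Aw B ω * (uS (plus B F) * av) =
        (Aw B ω - Aw B ω * av) + (Aw B ω - Aw B ω * uS (plus B F)) * av := by
      rw [sub_mul, ← mul_assoc]; abel
    have hA : Aw B ω - Aw B ω * av = (N + F.card + 1)⁻¹ •
        ∑ y ∈ insert (Sum.inl x) (plus B F), (Aw B ω - Aw B ω * pt (swap (Sum.inl x) y)) := by
      rw [hav, hc, Finset.sum_sub_distrib, Finset.sum_const, Finset.card_insert_of_notMem hx',
        smul_sub, ← Nat.cast_smul_eq_nsmul ℝ, smul_smul, mul_smul_comm, Finset.mul_sum]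
      congr 1
      push_cast
      rw [hc, inv_mul_cancel₀ hpos.ne', one_smul]
    have hAn : nrm (Aw B ω - Aw B ω * av) ≤ 2 * Lf N ω x + (2 / N) * ∑ y ∈ F, Lf N ω y := by
      rw [hA, nrm_smul, abs_of_nonneg (by positivity), inv_mul_le_iff₀ hpos]
      refine (nrm_sum_le _ _).trans ?_
      rw [Finset.sum_insert hx']
      have e0 : nrm (Aw B ω - Aw B ω * pt (swap (Sum.inl x) (Sum.inl x))) = 0 := by
        rw [nrm_sub_comm]; exact Dp_self ω (Sum.inl x)
      rw [e0, zero_add]
      have hpl : plus B F = bulk H B ∪ F.image Sum.inl := rfl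
      have hdisj : Disjoint (bulk H B) (F.image Sum.inl) := by
        rw [Finset.disjoint_left]
        rintro z hz hz'
        rw [Finset.mem_image] at hz'
        obtain ⟨x, _, rfl⟩ := hz'
        simp at hz
      have hbk : bulk H B = (Finset.univ : Finset B).image Sum.inr := by
        ext (x | b) <;> simp
      rw [hpl, Finset.sum_union hdisj, hbk,
        Finset.sum_image (fun a _ b _ h => Sum.inr_injective h),
        Finset.sum_image (fun a _ b _ h => Sum.inl_injective h)]
      have e1 : ∑ b : B, nrm (Aw B ω - Aw B ω * pt (swap (Sum.inl x) (Sum.inr b))) ≤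
          N * (2 * Lf N ω x) := by
        have : ∀ b : B, nrm (Aw B ω - Aw B ω * pt (swap (Sum.inl x) (Sum.inr b))) ≤
            2 * Lf N ω x := by
          intro b
          rw [nrm_sub_comm]; exact h1 x b
        have h := Finset.sum_le_sum fun b (_ : b ∈ Finset.univ) => this b
        rw [Finset.sum_const, Finset.card_univ, nsmul_eq_mul] at h
        exact h
      have e2 : ∑ y ∈ F, nrm (Aw B ω - Aw B ω * pt (swap (Sum.inl x) (Sum.inl y))) ≤
          F.card * (2 * Lf N ω x) + 2 * ∑ y ∈ F, Lf N ω y := by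
        have : ∀ y ∈ F, nrm (Aw B ω - Aw B ω * pt (swap (Sum.inl x) (Sum.inl y))) ≤
            2 * Lf N ω x + 2 * Lf N ω y := by
          intro y _
          rw [nrm_sub_comm]
          have := h2 x y
          unfold Dp at this
          linarith
        have h := Finset.sum_le_sum this
        rw [Finset.sum_add_distrib, Finset.sum_const, nsmul_eq_mul, ← Finset.mul_sum] at h
        exact h
      have hS : 0 ≤ ∑ y ∈ F, Lf N ω y := Finset.sum_nonneg fun y _ => hL y
      have hx0 := hL x
      have hF0 : (0 : ℝ) ≤ F.card := by positivity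
      have e3 : (N + F.card + 1) * ((2 / N) * ∑ y ∈ F, Lf N ω y) ≥ 2 * ∑ y ∈ F, Lf N ω y := by
        have : (N + F.card + 1) * ((2 / N) * ∑ y ∈ F, Lf N ω y) =
            2 * ∑ y ∈ F, Lf N ω y + (F.card + 1) * ((2 / N) * ∑ y ∈ F, Lf N ω y) := by
          field_simp
          ring
        rw [this]
        have : 0 ≤ (F.card + 1) * ((2 / N) * ∑ y ∈ F, Lf N ω y) := by positivity
        linarith
      nlinarith
    have hBn : nrm ((Aw B ω - Aw B ω * uS (plus B F)) * av) ≤
        2 * (1 + (F.card : ℝ) / N) * ∑ x ∈ F, Lf N ω x := by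
      refine (nrm_mul_le _ _).trans ?_
      calc _ ≤ nrm (Aw B ω - Aw B ω * uS (plus B F)) * 1 :=
            mul_le_mul_of_nonneg_left hnav (nrm_nonneg _)
        _ ≤ _ := by rw [mul_one]; exact ih
    rw [hsplit]
    refine (nrm_add_le _ _).trans ((add_le_add hAn hBn).trans ?_)
    rw [Finset.sum_insert hx, Finset.card_insert_of_notMem hx]
    have hS : 0 ≤ ∑ y ∈ F, Lf N ω y := Finset.sum_nonneg fun y _ => hL y
    have hx0 := hL x
    push_cast
    have key : 2 * (1 + ((F.card : ℝ) + 1) / N) * (Lf N ω x + ∑ y ∈ F, Lf N ω y) -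
        (2 * Lf N ω x + 2 / N * ∑ y ∈ F, Lf N ω y +
          2 * (1 + (F.card : ℝ) / N) * ∑ x ∈ F, Lf N ω x) =
        2 * (((F.card : ℝ) + 1) / N) * Lf N ω x := by
      field_simp
      ring
    have hnn : 0 ≤ 2 * (((F.card : ℝ) + 1) / N) * Lf N ω x := by positivity
    linarith

end

theorem u2 : U2Statement := by
  intro H B _ _ _ _ hB hHB ω
  set N : ℝ := (Fintype.card B : ℝ) with hN
  have hN1 : (1 : ℝ) ≤ N := by rw [hN]; exact_mod_cast hB
  have hN0 : (0 : ℝ) < N := by linarith
  set F : Finset H := Finset.univ.filter fun x => tr ω x = none with hF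
  have hfree : free B (tr ω) = plus B F := by
    ext (x | b)
    · simp [plus, hF]
    · simp [plus]
  have hmain := main_bound hB ω F
  rw [← hN] at hmain
  rw [← hfree, Aw_mul_uS hB] at hmain
  have hcard : (F.card : ℝ) ≤ N := by
    rw [hN]
    exact_mod_cast (Finset.card_le_univ F).trans hHB
  have hS : 0 ≤ ∑ x ∈ F, Lf N ω x := Finset.sum_nonneg fun y _ => Lf_nonneg hN0.le ω y
  have hsum : ∑ x : H, (if tr ω x = none then Lf N ω x else 0) = ∑ x ∈ F, Lf N ω x := by
    rw [hF, Finset.sum_filter]
  rw [hsum]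
  change nrm (Aw B ω - US B (tr ω)) ≤ _
  refine hmain.trans ?_
  have : (F.card : ℝ) / N ≤ 1 := by rw [div_le_one hN0]; exact hcard
  have h4 : 2 * (1 + (F.card : ℝ) / N) ≤ 4 := by linarith
  exact mul_le_mul_of_nonneg_right h4 hS

end Pool.Agent.Helper91_CW
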