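import Pool.Agent.Helper91_CW.Defs

set_option autoImplicit false

/-!
# The upper bound in terms of edge weights
-/

namespace Pool.Agent.Helper91_CW

open Equiv

section
variable {H : Type} [Fintype H] [DecidableEq H]

/-- Total weight of the letters which are not idle: `w x y` is the weight of the pair `{x, y}` of
gadget positions, `q v` the weight of each pair `{v, b}`, `r` the weight of each pair of bulk
positions (the diagonal terms of the last sum are idle). `N` is the size of the bulk. -/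
noncomputable def totW (N : ℕ) (w : H → H → ℝ) (q : H → ℝ) (r : ℝ) : ℝ :=
  (1 / 2) * ∑ x, ∑ y, w x y + N * ∑ v, q v + r * (N : ℝ) ^ 2 / 2

/-- The step distribution of the weighted walk. -/
noncomputable def stepW (B : Type) [Fintype B] [DecidableEq B] (w : H → H → ℝ) (q : H → ℝ)
    (r : ℝ) : Alg (PV H B) :=
  (1 - totW (Fintype.card B) w q r) • (1 : Alg (PV H B)) +
    (1 / 2 : ℝ) • ∑ x, ∑ y, w x y • pt (swap (Sum.inl x) (Sum.inl y)) +
    ∑ v, q v • ∑ b : B, pt (swap (Sum.inl v) (Sum.inr b)) +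
    (r / 2) • ∑ b : B, ∑ b' : B, pt (swap (Sum.inr b) (Sum.inr b'))

/-- The one-card kernel killed when the card enters the bulk. -/
noncomputable def Kw (N : ℕ) (w : H → H → ℝ) (q : H → ℝ) (f : H → ℝ) : H → ℝ :=
  fun x => (1 - ∑ y, w x y - N * q x) * f x + ∑ y, w x y * f y

/-- Probability that the card from `z` does not enter the bulk for `s` steps. -/
noncomputable def kw (N : ℕ) (w : H → H → ℝ) (q : H → ℝ) (s : ℕ) (z : H) : ℝ :=
  (Kw N w q)^[s] (fun _ => 1) z

/-- Expected number of cards which do not enter the bulk for `s` steps. -/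
noncomputable def mw (N : ℕ) (w : H → H → ℝ) (q : H → ℝ) (s : ℕ) : ℝ := ∑ z, kw N w q s z

end

open Classical in
/-- UB: the upper bound in terms of weights. -/
def UBStatement : Prop :=
  ∀ (H B : Type) [Fintype H] [DecidableEq H] [Fintype B] [DecidableEq B],
    1 ≤ Fintype.card B → 2 * Fintype.card H ≤ Fintype.card B →
    ∀ (w : H → H → ℝ) (q : H → ℝ) (r : ℝ), (∀ x y, 0 ≤ w x y) → (∀ x y, w x y = w y x) →
      (∀ x, w x x = 0) → (∀ v, 0 ≤ q v) → 0 ≤ r → totW (Fintype.card B) w q r ≤ 1 →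
    ∀ (lv : H → ℕ) (Up : Finset H),
      (∀ x ∈ Up, ∀ x' ∈ Up, lv x = lv x' →
        q x = q x' ∧ ∀ y, y ≠ x → y ≠ x' → w x y = w x' y) →
    ∀ (r0 : ℕ) (A : ℝ), 1 ≤ r0 → 0 < A → ∀ t1 t2 : ℕ,
      nrm (stepW B w q r ^ (t1 + t2) - UU H B) ≤
        2 * (Fintype.card B : ℝ) ^ 2 * (1 - r * Fintype.card B / 2) ^ (t1 + t2) +
        4 * ∑ s ∈ Finset.range (t1 + t2),
          (∑ v, q v * kw (Fintype.card B) w q s v) * mw (Fintype.card B) w q (t1 + t2 - 1 - s) +
        8 * (Fintype.card H : ℝ) / Fintype.card B * (∑ v, q v) *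
          ∑ s ∈ Finset.range (t1 + t2), mw (Fintype.card B) w q (t1 + t2 - 1 - s) +
        2 * ((∑ x, ∑ y, if GoodPair lv Up r0 A x y then 0 else
              (Kw (Fintype.card B) w q)^[t1 + t2] (fun z => if z = y then 1 else 0) x) +
            (∑ z ∈ Up, kw (Fintype.card B) w q t1 z * kw (Fintype.card B) w q t2 z) +
            (r0 : ℝ)⁻¹ * mw (Fintype.card B) w q (t1 + t2)) +
        2 * Real.sqrt ((Fintype.card H + Fintype.card B : ℕ) / A) *
          mw (Fintype.card B) w q (t1 + t2)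

end Pool.Agent.Helper91_CW
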